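import Mathlib

set_option autoImplicit false

open Set Topology Filter

namespace Pool.Agent.TH566.WSM

universe u v

/-- labelled families: `W e` is antitone in the finite label set `e`. -/
theorem comb {Z : Type u} (W : Finset ℕ → Set (Set Z)) (hW : ∀ e e', e ⊆ e' → W e' ⊆ W e)
    (r : ℕ) (W0 : Fin r → Set Z) (S : Set Z)
    (good : ∀ z ∈ S, ∀ l, ∃ e, W0 l ∈ W e ∧ {V ∈ W e | z ∈ V}.Finite)
    (hunion : ∀ l e e', W0 l ∈ W e → W0 l ∈ W e' → W0 l ∈ W (e ∪ e'))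
    (h0 : ∀ l, W0 l ∈ W ∅)
    (H : ∀ P : Finset Z, ↑P ⊆ S → ∀ e : Fin r → Finset ℕ, (∀ l, W0 l ∈ W (e l)) →
      ∃ V : Fin r → Set Z, (∀ l, V l ∈ W (e l)) ∧ ∀ z ∈ P, ∃ l, z ∈ V l) :
    ∃ V : Fin r → Set Z, (∀ l, V l ∈ W ∅) ∧ S ⊆ ⋃ l, V l := by
  classical
  choose ez hez1 hez2 using good
  let eP : Finset S → Fin r → Finset ℕ := fun P l => P.biUnion fun z => ez z.1 z.2 l
  have heP : ∀ P l, W0 l ∈ W (eP P l) := by
    intro P l
    induction P using Finset.induction_on with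
    | empty => exact h0 l
    | insert a s ha ih =>
      have : eP (insert a s) l = ez a.1 a.2 l ∪ eP s l := by
        simp only [eP, Finset.biUnion_insert]
      rw [this]
      exact hunion l _ _ (hez1 a.1 a.2 l) ih
  have hex : ∀ P : Finset S, ∃ V : Fin r → Set Z, (∀ l, V l ∈ W (eP P l)) ∧
      ∀ z ∈ P, ∃ l, z.1 ∈ V l := by
    intro P
    obtain ⟨V, hV1, hV2⟩ := H (P.map (Function.Embedding.subtype _)) (by
      intro z hz
      simp only [Finset.coe_map, Function.Embedding.subtype_apply, Set.mem_image,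
        Finset.mem_coe] at hz
      obtain ⟨y, _, rfl⟩ := hz
      exact y.2) (eP P) (heP P)
    refine ⟨V, hV1, fun z hz => hV2 z.1 ?_⟩
    simp only [Finset.mem_map, Function.Embedding.subtype_apply]
    exact ⟨z, hz, rfl⟩
  choose V hV1 hV2 using hex
  let F : Ultrafilter (Finset S) := Ultrafilter.of atTop
  have hF : (F : Filter (Finset S)) ≤ atTop := Ultrafilter.of_le _
  -- the limit sets
  let lim : Fin r → Set Z := fun l =>
    if h : ∃ A : Set Z, A ∈ W ∅ ∧ ∀ᶠ P in (F : Filter (Finset S)), V P l = A then h.choose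
      else W0 l
  refine ⟨lim, fun l => ?_, fun z hz => ?_⟩
  · simp only [lim]
    split_ifs with h
    · exact h.choose_spec.1
    · exact h0 l
  · have h1 : ∀ᶠ P in (F : Filter (Finset S)), (⟨z, hz⟩ : S) ∈ P := by
      apply hF
      exact (eventually_ge_atTop ({⟨z, hz⟩} : Finset S)).mono fun P hP => hP (by simp)
    have h2 : ∀ᶠ P in (F : Filter (Finset S)), ∃ l, z ∈ V P l := h1.mono fun P hP => hV2 P _ hP
    obtain ⟨l, hl⟩ := Ultrafilter.eventually_exists_iff.1 h2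
    have h3 : ∀ᶠ P in (F : Filter (Finset S)), V P l ∈ W (ez z hz l) := by
      refine h1.mono fun P hP => ?_
      refine hW _ _ ?_ (hV1 P l)
      exact Finset.subset_biUnion_of_mem (fun z : S => ez z.1 z.2 l) hP
    have h4 : ∀ᶠ P in (F : Filter (Finset S)),
        ∃ A ∈ {A | A ∈ W (ez z hz l) ∧ z ∈ A}, V P l = A := by
      filter_upwards [h3, hl] with P h5 h6
      exact ⟨V P l, ⟨h5, h6⟩, rfl⟩
    obtain ⟨A, hA, h5⟩ := (Ultrafilter.eventually_exists_mem_iff (hez2 z hz l)).1 h4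
    have hex : ∃ A : Set Z, A ∈ W ∅ ∧ ∀ᶠ P in (F : Filter (Finset S)), V P l = A :=
      ⟨A, hW _ _ (Finset.empty_subset _) hA.1, h5⟩
    have hlim : lim l = A := by
      simp only [lim]
      rw [dif_pos hex]
      obtain ⟨P, h6, h7⟩ := (hex.choose_spec.2.and h5).exists
      exact h6.symm.trans h7
    rw [mem_iUnion]
    exact ⟨l, by rw [hlim]; exact hA.2⟩

/-- A family of subsets of `X` is weakly `σ`-point-finite. -/
def WeaklySigmaPointFinite {X : Type u} (𝒜 : Set (Set X)) : Prop :=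
  ∃ A : ℕ → Set (Set X), 𝒜 = ⋃ n, A n ∧
    ∀ x : X, 𝒜 = ⋃ n ∈ {n : ℕ | {a : Set X | a ∈ A n ∧ x ∈ a}.Finite}, A n

/-- Weakly `σ`-metacompact spaces. -/
def WeaklySigmaMetacompact (X : Type u) [TopologicalSpace X] : Prop :=
  ∀ 𝒰 : Set (Set X), (∀ U ∈ 𝒰, IsOpen U) → ⋃₀ 𝒰 = univ →
    ∃ 𝒱 : Set (Set X), (∀ V ∈ 𝒱, IsOpen V) ∧ ⋃₀ 𝒱 = univ ∧
      (∀ V ∈ 𝒱, ∃ U ∈ 𝒰, V ⊆ U) ∧ WeaklySigmaPointFinite 𝒱

/-- Lindelöf `Σ`-spaces. -/
def LindelofSigma (Y : Type u) [TopologicalSpace Y] : Prop :=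
  ∃ 𝒩 𝒞 : Set (Set Y), 𝒩.Countable ∧ (∀ K ∈ 𝒞, IsCompact K) ∧ ⋃₀ 𝒞 = univ ∧
    ∀ K ∈ 𝒞, ∀ U : Set Y, IsOpen U → K ⊆ U → ∃ N ∈ 𝒩, K ⊆ N ∧ N ⊆ U

section

variable {X : Type u} [TopologicalSpace X]

/-- labelled open families in the square, with closures missing the diagonal. -/
structure Lab (X : Type u) [TopologicalSpace X] where
  A : ℕ → Set (Set (X × X))
  op : ∀ n, ∀ V ∈ A n, IsOpen V
  cl : ∀ n, ∀ V ∈ A n, Disjoint (closure V) (diagonal X)
  cov : ∀ z : X × X, z ∉ diagonal X → ∃ n, ∃ V ∈ A n, z ∈ V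
  fin : ∀ z : X × X, ∀ n, ∀ V ∈ A n, ∃ m, V ∈ A m ∧ {U | U ∈ A m ∧ z ∈ U}.Finite

theorem exists_lab [CompactSpace X] [T2Space X]
    (h : WeaklySigmaMetacompact ↥((diagonal X)ᶜ)) : Nonempty (Lab X) := by
  obtain ⟨𝒱, h1, h2, h3, A, h4, h5⟩ := h
    {U | IsOpen U ∧ Disjoint (closure (Subtype.val '' U : Set (X × X))) (diagonal X)}
    (fun U hU => hU.1) (by
      rw [eq_univ_iff_forall]
      intro z
      have hz : (diagonal X)ᶜ ∈ 𝓝 z.1 := isClosed_diagonal.isOpen_compl.mem_nhds z.2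
      obtain ⟨O, hO1, hO2, hO3⟩ := exists_mem_nhds_isClosed_subset hz
      obtain ⟨O', hO'1, hO'2, hO'3⟩ := mem_nhds_iff.1 hO1
      refine ⟨Subtype.val ⁻¹' O', ⟨hO'2.preimage continuous_subtype_val, ?_⟩, hO'3⟩
      rw [Set.disjoint_left]
      intro y hy
      have : y ∈ O := by
        refine closure_minimal ?_ hO2 hy
        rintro _ ⟨w, hw, rfl⟩
        exact hO'1 hw
      exact hO3 this)
  have hmem : ∀ n, ∀ V ∈ A n, V ∈ 𝒱 := by
    intro n V hV
    rw [h4]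
    exact mem_iUnion.2 ⟨n, hV⟩
  refine ⟨⟨fun n => (fun V => (Subtype.val '' V : Set (X × X))) '' A n, ?_, ?_, ?_, ?_⟩⟩
  · rintro n _ ⟨V, hV, rfl⟩
    exact isClosed_diagonal.isOpen_compl.isOpenMap_subtype_val _ (h1 V (hmem n V hV))
  · rintro n _ ⟨V, hV, rfl⟩
    obtain ⟨U, hU, hVU⟩ := h3 V (hmem n V hV)
    exact hU.2.mono_left (closure_mono (image_mono hVU))
  · intro z hz
    have : (⟨z, hz⟩ : ↥((diagonal X)ᶜ)) ∈ ⋃₀ 𝒱 := by rw [h2]; trivial
    obtain ⟨V, hV, hzV⟩ := this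
    rw [h4] at hV
    obtain ⟨n, hn⟩ := mem_iUnion.1 hV
    exact ⟨n, _, ⟨V, hn, rfl⟩, ⟨_, hzV, rfl⟩⟩
  · rintro z n _ ⟨V, hV, rfl⟩
    by_cases hz : z ∈ diagonal X
    · refine ⟨n, ⟨V, hV, rfl⟩, ?_⟩
      convert Set.finite_empty
      rw [Set.eq_empty_iff_forall_notMem]
      rintro _ ⟨⟨U, hU, rfl⟩, ⟨y, hy, hyz⟩⟩
      exact y.2 (hyz ▸ hz)
    · have h6 := h5 ⟨z, hz⟩
      have h7 : V ∈ 𝒱 := hmem n V hV
      rw [h6] at h7
      obtain ⟨m, hm⟩ := mem_iUnion.1 h7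
      obtain ⟨hm1, hm2⟩ := mem_iUnion.1 hm
      refine ⟨m, ⟨V, hm2, rfl⟩, ?_⟩
      refine (hm1.image fun V => (Subtype.val '' V : Set (X × X))).subset ?_
      rintro _ ⟨⟨U, hU, rfl⟩, ⟨y, hy, hyz⟩⟩
      refine ⟨U, ⟨hU, ?_⟩, rfl⟩
      have : y = ⟨z, hz⟩ := Subtype.ext hyz
      rw [← this]
      exact hy

namespace Lab

variable (L : Lab X)

/-- the family with labels `e`. -/
def W (e : Finset ℕ) : Set (Set (X × X)) := {V | (∃ n, V ∈ L.A n) ∧ ∀ n ∈ e, V ∈ L.A n}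

/-- the countable family of sets of functions. -/
def D : (ℚ × ℚ × (Σ r : ℕ, Fin r → Finset ℕ)) ⊕ ℕ → Set (X → ℝ)
  | Sum.inl (u, v, ⟨r, e⟩) => {f | Continuous f ∧ ∃ V : Fin r → Set (X × X),
      (∀ l, V l ∈ L.W (e l)) ∧ ∀ z : X × X, f z.1 ≤ u → v ≤ f z.2 → ∃ l, z ∈ V l}
  | Sum.inr m => {f | Continuous f ∧ ∀ x, |f x| ≤ m}

theorem D_cont (j) (f : X → ℝ) (hf : f ∈ L.D j) : Continuous f := by
  rcases j with ⟨u, v, r, e⟩ | m
  · exact hf.1
  · exact hf.1

theorem disj [CompactSpace X] [T2Space X] (f g : X → ℝ) (hf : Continuous f)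
    (hg : ∀ j, f ∈ L.D j → g ∈ closure (L.D j)) (u v : ℚ) (huv : u < v) :
    Disjoint (closure {x | g x < u}) (closure {x | v < g x}) := by
  -- the compact set
  have hC : IsCompact {z : X × X | f z.1 ≤ u ∧ v ≤ f z.2} := by
    apply IsClosed.isCompact
    exact (isClosed_le (hf.comp continuous_fst) continuous_const).inter
      (isClosed_le continuous_const (hf.comp continuous_snd))
  have hcov : {z : X × X | f z.1 ≤ u ∧ v ≤ f z.2} ⊆
      ⋃ V : {V : Set (X × X) // ∃ n, V ∈ L.A n}, V.1 := by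
    intro z hz
    have hzd : z ∉ diagonal X := by
      intro h
      have h1 : z.1 = z.2 := h
      have h2 : (v : ℝ) ≤ u := by
        calc (v : ℝ) ≤ f z.2 := hz.2
          _ = f z.1 := by rw [h1]
          _ ≤ u := hz.1
      have h3 : v ≤ u := by exact_mod_cast h2
      exact absurd h3 (not_le.2 huv)
    obtain ⟨n, V, hV, hzV⟩ := L.cov z hzd
    exact mem_iUnion.2 ⟨⟨V, n, hV⟩, hzV⟩
  obtain ⟨t, ht⟩ := hC.elim_finite_subcover (fun V : {V : Set (X × X) // ∃ n, V ∈ L.A n} => V.1)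
    (fun V => V.2.elim fun n hn => L.op n V.1 hn) hcov
  let W0 : Fin t.card → Set (X × X) := fun l => (t.equivFin.symm l).1.1
  have hW0 : ∀ z : X × X, f z.1 ≤ u → v ≤ f z.2 → ∃ l, z ∈ W0 l := by
    intro z h1 h2
    obtain ⟨V, hV, hz⟩ := mem_iUnion₂.1 (ht ⟨h1, h2⟩)
    exact ⟨t.equivFin ⟨V, hV⟩, by simpa [W0] using hz⟩
  have hW0' : ∀ l, W0 l ∈ L.W ∅ := fun l => ⟨(t.equivFin.symm l).1.2, by simp⟩
  obtain ⟨V, hV, hS⟩ := comb L.W (fun e e' hee' V hV => ⟨hV.1, fun n hn => hV.2 n (hee' hn)⟩)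
    t.card W0 {z | g z.1 < u ∧ v < g z.2} (by
      intro z _ l
      obtain ⟨n, hn⟩ := (hW0' l).1
      obtain ⟨m, hm1, hm2⟩ := L.fin z n _ hn
      refine ⟨{m}, ⟨(hW0' l).1, by simpa using hm1⟩, hm2.subset ?_⟩
      rintro U ⟨hU1, hU2⟩
      exact ⟨hU1.2 m (by simp), hU2⟩) (by
      intro l e e' he he'
      refine ⟨he.1, fun n hn => ?_⟩
      rcases Finset.mem_union.1 hn with hn | hn
      · exact he.2 n hn
      · exact he'.2 n hn) hW0' (by
      intro P hP e he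
      have h1 : f ∈ L.D (Sum.inl (u, v, ⟨t.card, e⟩)) := ⟨hf, W0, he, hW0⟩
      have h2 := hg _ h1
      have h3 : {f' : X → ℝ | ∀ z ∈ P, f' z.1 < u ∧ v < f' z.2} ∈ 𝓝 g := by
        apply IsOpen.mem_nhds
        · have : {f' : X → ℝ | ∀ z ∈ P, f' z.1 < u ∧ v < f' z.2} =
              ⋂ z ∈ P, {f' : X → ℝ | f' z.1 < u ∧ v < f' z.2} := by
            ext f'; simp
          rw [this]
          refine isOpen_biInter_finset fun z _ => ?_
          exact (isOpen_lt (continuous_apply _) continuous_const).inter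
            (isOpen_lt continuous_const (continuous_apply _))
        · intro z hz
          exact hP hz
      obtain ⟨f', hf'1, hf'2⟩ := mem_closure_iff_nhds.1 h2 _ h3
      obtain ⟨_, V, hV1, hV2⟩ := hf'2
      refine ⟨V, hV1, fun z hz => hV2 z (hf'1 z hz).1.le (hf'1 z hz).2.le⟩)
  rw [Set.disjoint_left]
  intro x hx hx'
  have h1 : (x, x) ∈ closure ({x | g x < u} ×ˢ {x | v < g x}) := by
    rw [closure_prod_eq]
    exact ⟨hx, hx'⟩
  have h2 : closure ({x | g x < u} ×ˢ {x | v < g x}) ⊆ ⋃ l, closure (V l) := by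
    refine closure_minimal ?_ (isClosed_iUnion_of_finite fun l => isClosed_closure)
    intro z hz
    obtain ⟨l, hl⟩ := mem_iUnion.1 (hS ⟨hz.1, hz.2⟩)
    exact mem_iUnion.2 ⟨l, subset_closure hl⟩
  obtain ⟨l, hl⟩ := mem_iUnion.1 (h2 h1)
  obtain ⟨n, hn⟩ := (hV l).1
  exact Set.disjoint_left.1 (L.cl n _ hn) hl rfl

theorem limit_cont [CompactSpace X] [T2Space X] (f g : X → ℝ) (hf : Continuous f)
    (hg : ∀ j, f ∈ L.D j → g ∈ closure (L.D j)) : Continuous g := by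
  rw [continuous_iff_continuousAt]
  intro x
  rw [ContinuousAt, Metric.tendsto_nhds]
  intro ε hε
  have h1 : ∀ᶠ y in 𝓝 x, g y < g x + ε := by
    obtain ⟨v, hv1, hv2⟩ := exists_rat_btwn (lt_add_of_pos_right (g x) hε)
    obtain ⟨u, hu1, hu2⟩ := exists_rat_btwn hv1
    have huv : u < v := by exact_mod_cast hu2
    have h2 := L.disj f g hf hg u v huv
    have h3 : x ∉ closure {x | v < g x} := fun h =>
      Set.disjoint_left.1 h2 (subset_closure hu1) h
    filter_upwards [isClosed_closure.isOpen_compl.mem_nhds h3] with y hy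
    have h4 : ¬ (v : ℝ) < g y := fun h => hy (subset_closure h)
    exact (not_lt.1 h4).trans_lt hv2
  have h2 : ∀ᶠ y in 𝓝 x, g x - ε < g y := by
    obtain ⟨u, hu1, hu2⟩ := exists_rat_btwn (sub_lt_self (g x) hε)
    obtain ⟨v, hv1, hv2⟩ := exists_rat_btwn hu2
    have huv : u < v := by exact_mod_cast hv1
    have h2 := L.disj f g hf hg u v huv
    have h3 : x ∉ closure {x | g x < u} := fun h =>
      Set.disjoint_left.1 h2 h (subset_closure hv2)
    filter_upwards [isClosed_closure.isOpen_compl.mem_nhds h3] with y hy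
    have h4 : ¬ g y < u := fun h => hy (subset_closure h)
    exact hu1.trans_le (not_lt.1 h4)
  filter_upwards [h1, h2] with y hy1 hy2
  rw [Real.dist_eq, abs_lt]
  constructor <;> linarith

include L in
theorem lindelofSigma [CompactSpace X] [T2Space X] :
    LindelofSigma {f : X → ℝ // Continuous f} := by
  classical
  let J := (ℚ × ℚ × (Σ r : ℕ, Fin r → Finset ℕ)) ⊕ ℕ
  let N : Finset J → Set {f : X → ℝ // Continuous f} :=
    fun F => {g | ∀ j ∈ F, g.1 ∈ closure (L.D j)}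
  let K : {f : X → ℝ // Continuous f} → Set {f : X → ℝ // Continuous f} :=
    fun f => {g | ∀ j, f.1 ∈ L.D j → g.1 ∈ closure (L.D j)}
  have hbd : ∀ f : {f : X → ℝ // Continuous f}, ∃ m : ℕ, f.1 ∈ L.D (Sum.inr m) := by
    intro f
    obtain ⟨C, hC⟩ := isCompact_univ.exists_bound_of_continuousOn f.2.continuousOn
    obtain ⟨m, hm⟩ := exists_nat_ge C
    exact ⟨m, f.2, fun x => (hC x (mem_univ x)).trans hm⟩
  have hcl : ∀ m : ℕ, IsCompact (closure (L.D (Sum.inr m))) := by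
    intro m
    have h1 : IsCompact (Set.pi univ fun _ : X => Icc (-(m : ℝ)) m) :=
      isCompact_univ_pi fun _ => isCompact_Icc
    refine h1.of_isClosed_subset isClosed_closure (closure_minimal ?_ h1.isClosed)
    intro f hf x _
    exact abs_le.1 (hf.2 x)
  have hKim : ∀ f : {f : X → ℝ // Continuous f},
      Subtype.val '' K f = ⋂ j : {j : J // f.1 ∈ L.D j}, closure (L.D j.1) := by
    intro f
    ext g
    simp only [mem_image, mem_iInter, Subtype.forall]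
    constructor
    · rintro ⟨g, hg, rfl⟩ j hj
      exact hg j hj
    · intro h
      exact ⟨⟨g, L.limit_cont f.1 g f.2 h⟩, h, rfl⟩
  refine ⟨range N, range K, countable_range N, ?_, ?_, ?_⟩
  · rintro _ ⟨f, rfl⟩
    rw [Subtype.isCompact_iff, hKim]
    obtain ⟨m, hm⟩ := hbd f
    exact (hcl m).of_isClosed_subset (isClosed_iInter fun _ => isClosed_closure)
      (iInter_subset_of_subset ⟨Sum.inr m, hm⟩ Subset.rfl)
  · rw [eq_univ_iff_forall]
    intro f
    exact ⟨K f, ⟨f, rfl⟩, fun j hj => subset_closure hj⟩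
  · rintro _ ⟨f, rfl⟩ U hU hKU
    obtain ⟨U', hU', rfl⟩ := isOpen_induced_iff.1 hU
    obtain ⟨m, hm⟩ := hbd f
    have h1 : (closure (L.D (Sum.inr m)) ∩ U'ᶜ) ∩
        ⋂ j : {j : J // f.1 ∈ L.D j}, closure (L.D j.1) = ∅ := by
      rw [← hKim, Set.eq_empty_iff_forall_notMem]
      rintro _ ⟨⟨_, hg⟩, ⟨g, hgK, rfl⟩⟩
      exact hg (hKU hgK)
    obtain ⟨t, ht⟩ := ((hcl m).inter_right hU'.isClosed_compl).elim_finite_subfamily_closed
      (fun j : {j : J // f.1 ∈ L.D j} => closure (L.D j.1)) (fun _ => isClosed_closure) h1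
    refine ⟨_, ⟨insert (Sum.inr m) (t.image Subtype.val), rfl⟩, ?_, ?_⟩
    · intro g hg j hj
      rcases Finset.mem_insert.1 hj with rfl | hj
      · exact hg _ hm
      · obtain ⟨i, _, rfl⟩ := Finset.mem_image.1 hj
        exact hg _ i.2
    · intro g hg
      by_contra hgU
      have h2 : g.1 ∈ (closure (L.D (Sum.inr m)) ∩ U'ᶜ) ∩
          ⋂ j ∈ t, closure (L.D j.1) := by
        refine ⟨⟨hg _ (Finset.mem_insert_self _ _), hgU⟩, ?_⟩
        rw [mem_iInter₂]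
        intro j hj
        exact hg _ (Finset.mem_insert_of_mem (Finset.mem_image_of_mem _ hj))
      rw [ht] at h2
      exact h2

end Lab

end

end Pool.Agent.TH566.WSM
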