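import Mathlib
import Pool.Agent.TH566.WSM

set_option autoImplicit false

open Set Topology Filter

namespace Pool.Agent.TH566.Nw

open Pool.Agent.TH566.WSM

universe u v

/-- a family of pairs (piece, open expansion) with labels in `κ`. -/
structure Net (Y : Type u) [TopologicalSpace Y] (κ : Type v) where
  P : κ → Set (Set Y × Set Y)
  sub : ∀ k, ∀ p ∈ P k, p.1 ⊆ p.2
  op : ∀ k, ∀ p ∈ P k, IsOpen p.2
  fin : ∀ y : Y, ∀ k, ∀ p ∈ P k, ∃ m, p ∈ P m ∧ {q | q ∈ P m ∧ y ∈ q.2}.Finite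
  net : ∀ y : Y, ∀ O ∈ 𝓝 y, ∃ k, ∃ p ∈ P k, y ∈ p.1 ∧ p.1 ⊆ O

/-- the product of two nets. -/
def Net.prod {Y Z : Type u} [TopologicalSpace Y] [TopologicalSpace Z] {κ μ : Type v}
    (A : Net Y κ) (B : Net Z μ) : Net (Y × Z) (κ × μ) where
  P k := (fun pq : (Set Y × Set Y) × (Set Z × Set Z) => (pq.1.1 ×ˢ pq.2.1, pq.1.2 ×ˢ pq.2.2)) ''
    (A.P k.1 ×ˢ B.P k.2)
  sub := by
    rintro k _ ⟨⟨p, q⟩, ⟨hp, hq⟩, rfl⟩
    exact prod_mono (A.sub _ _ hp) (B.sub _ _ hq)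
  op := by
    rintro k _ ⟨⟨p, q⟩, ⟨hp, hq⟩, rfl⟩
    exact (A.op _ _ hp).prod (B.op _ _ hq)
  fin := by
    rintro ⟨y, z⟩ k _ ⟨⟨p, q⟩, ⟨hp, hq⟩, rfl⟩
    obtain ⟨m, hm1, hm2⟩ := A.fin y _ _ hp
    obtain ⟨n, hn1, hn2⟩ := B.fin z _ _ hq
    refine ⟨(m, n), ⟨(p, q), ⟨hm1, hn1⟩, rfl⟩, ?_⟩
    refine ((hm2.prod hn2).image fun pq : (Set Y × Set Y) × (Set Z × Set Z) =>
      (pq.1.1 ×ˢ pq.2.1, pq.1.2 ×ˢ pq.2.2)).subset ?_
    rintro _ ⟨⟨⟨p', q'⟩, ⟨hp', hq'⟩, rfl⟩, hyz⟩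
    exact ⟨(p', q'), ⟨⟨hp', hyz.1⟩, ⟨hq', hyz.2⟩⟩, rfl⟩
  net := by
    rintro ⟨y, z⟩ O hO
    rw [nhds_prod_eq, mem_prod_iff] at hO
    obtain ⟨O1, hO1, O2, hO2, hO⟩ := hO
    obtain ⟨k, p, hp, hp1, hp2⟩ := A.net y O1 hO1
    obtain ⟨l, q, hq, hq1, hq2⟩ := B.net z O2 hO2
    exact ⟨(k, l), _, ⟨(p, q), ⟨hp, hq⟩, rfl⟩, ⟨hp1, hq1⟩, (prod_mono hp2 hq2).trans hO⟩

theorem wsm_of_net {Y : Type u} [TopologicalSpace Y] {κ : Type v} [Countable κ]
    (A : Net Y κ) (S : Set Y) : WeaklySigmaMetacompact S := by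
  classical
  obtain ⟨f, hf⟩ := exists_injective_nat κ
  intro 𝒰 hU hcov
  let good : Set Y × Set Y → Prop := fun p => ∃ U ∈ 𝒰, (Subtype.val ⁻¹' p.1 : Set S) ⊆ U
  let V : Set Y × Set Y → Set S := fun p =>
    if h : good p then h.choose ∩ Subtype.val ⁻¹' p.2 else ∅
  let B : κ → Set (Set S) := fun k => V '' {p | p ∈ A.P k ∧ good p}
  let C : ℕ → Set (Set S) := fun n => ⋃ k ∈ {k | f k = n}, B k
  have hC : ∀ k, C (f k) = B k := by
    intro k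
    ext W
    simp only [C, mem_iUnion, mem_ofPred_eq, exists_prop]
    constructor
    · rintro ⟨k', hk', hW⟩
      rw [← hf hk']; exact hW
    · intro h; exact ⟨k, rfl, h⟩
  have hV : ∀ p, good p → ∃ U ∈ 𝒰, V p = U ∩ Subtype.val ⁻¹' p.2 ∧
      (Subtype.val ⁻¹' p.1 : Set S) ⊆ U := by
    intro p hp
    refine ⟨hp.choose, hp.choose_spec.1, ?_, hp.choose_spec.2⟩
    simp only [V]
    rw [dif_pos hp]
  have hmem : ∀ W, W ∈ ⋃ n, C n ↔ ∃ k, W ∈ B k := by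
    intro W
    simp only [C, mem_iUnion, mem_ofPred_eq, exists_prop]
    constructor
    · rintro ⟨n, k, _, h⟩
      exact ⟨k, h⟩
    · rintro ⟨k, h⟩
      exact ⟨f k, k, rfl, h⟩
  refine ⟨⋃ n, C n, ?_, ?_, ?_, C, rfl, ?_⟩
  · intro W hW
    obtain ⟨k, p, ⟨hp, hg⟩, rfl⟩ := (hmem W).1 hW
    obtain ⟨U, hU1, hU2, _⟩ := hV p hg
    rw [hU2]
    exact (hU U hU1).inter ((A.op k p hp).preimage continuous_subtype_val)
  · rw [eq_univ_iff_forall]
    intro x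
    have hx : x ∈ ⋃₀ 𝒰 := by rw [hcov]; trivial
    obtain ⟨U, hU1, hxU⟩ := hx
    obtain ⟨O, hO, rfl⟩ := isOpen_induced_iff.1 (hU U hU1)
    obtain ⟨k, p, hp, hp1, hp2⟩ := A.net x.1 O (hO.mem_nhds hxU)
    have hg : good p := ⟨_, hU1, preimage_mono hp2⟩
    obtain ⟨U', hU'1, hU'2, hU'3⟩ := hV p hg
    refine ⟨V p, (hmem _).2 ⟨k, p, ⟨hp, hg⟩, rfl⟩, ?_⟩
    rw [hU'2]
    exact ⟨hU'3 hp1, A.sub k p hp hp1⟩
  · intro W hW
    obtain ⟨k, p, ⟨hp, hg⟩, rfl⟩ := (hmem W).1 hW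
    obtain ⟨U, hU1, hU2, _⟩ := hV p hg
    exact ⟨U, hU1, by rw [hU2]; exact inter_subset_left⟩
  · intro x
    apply Subset.antisymm
    · intro W hW
      obtain ⟨k, p, ⟨hp, hg⟩, rfl⟩ := (hmem W).1 hW
      obtain ⟨m, hm1, hm2⟩ := A.fin x.1 k p hp
      rw [mem_iUnion₂]
      refine ⟨f m, ?_, ?_⟩
      · rw [mem_ofPred_eq, hC]
        refine (hm2.image V).subset ?_
        rintro _ ⟨⟨q, ⟨hq, hgq⟩, rfl⟩, hx⟩
        obtain ⟨U', _, hU'2, _⟩ := hV q hgq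
        rw [hU'2] at hx
        exact ⟨q, ⟨hq, hx.2⟩, rfl⟩
      · rw [hC]
        exact ⟨p, ⟨hm1, hg⟩, rfl⟩
    · exact iUnion₂_subset fun n _ => subset_iUnion C n

/-! ### States -/

/-- labelled open families on `X`. -/
structure St (X : Type u) [TopologicalSpace X] where
  B : ℕ → Set (Set X)
  op : ∀ n, ∀ T ∈ B n, IsOpen T
  fin : ∀ x : X, ∀ n, ∀ T ∈ B n, ∃ m, T ∈ B m ∧ {U | U ∈ B m ∧ x ∈ U}.Finite

variable {X : Type u} [TopologicalSpace X]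

namespace St

variable (S : St X)

/-- finite intersections. -/
def I : List ℕ → Set (Set X)
  | [] => {univ}
  | n :: ns => {T | ∃ A ∈ S.B n, ∃ T' ∈ I ns, T = A ∩ T'}

theorem I_open (ns : List ℕ) : ∀ T ∈ S.I ns, IsOpen T := by
  induction ns with
  | nil => rintro T rfl; exact isOpen_univ
  | cons n ns ih =>
    rintro _ ⟨A, hA, T', hT', rfl⟩
    exact (S.op n A hA).inter (ih T' hT')

theorem I_fin (x : X) (ns : List ℕ) : ∀ T ∈ S.I ns, ∃ ms, T ∈ S.I ms ∧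
    {U | U ∈ S.I ms ∧ x ∈ U}.Finite := by
  induction ns with
  | nil =>
    rintro T rfl
    exact ⟨[], rfl, (finite_singleton univ).subset fun U hU => hU.1⟩
  | cons n ns ih =>
    rintro _ ⟨A, hA, T', hT', rfl⟩
    obtain ⟨m, hm1, hm2⟩ := S.fin x n A hA
    obtain ⟨ms, hms1, hms2⟩ := ih T' hT'
    refine ⟨m :: ms, ⟨A, hm1, T', hms1, rfl⟩, ?_⟩
    refine (hm2.image2 (fun A B => A ∩ B) hms2).subset ?_
    rintro _ ⟨⟨A', hA', T'', hT'', rfl⟩, hx⟩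
    exact ⟨A', ⟨hA', hx.1⟩, T'', ⟨hT'', hx.2⟩, rfl⟩

theorem I_sInter (F : Set (Set X)) (hF : F.Finite) (h : ∀ A ∈ F, ∃ n, A ∈ S.B n) :
    ∃ ns, ⋂₀ F ∈ S.I ns := by
  induction F, hF using Set.Finite.induction_on with
  | empty => exact ⟨[], by simp [I]⟩
  | @insert A F _ _ ih =>
    obtain ⟨ns, hns⟩ := ih fun A' hA' => h A' (mem_insert_of_mem _ hA')
    obtain ⟨n, hn⟩ := h A (mem_insert _ _)
    exact ⟨n :: ns, A, hn, _, hns, by rw [sInter_insert]⟩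

theorem I_rep (ns : List ℕ) : ∀ T ∈ S.I ns, ∃ F : Set (Set X), F.Finite ∧
    (∀ A ∈ F, ∃ n, A ∈ S.B n) ∧ T = ⋂₀ F := by
  induction ns with
  | nil =>
    rintro T rfl
    exact ⟨∅, finite_empty, by simp, by simp⟩
  | cons n ns ih =>
    rintro _ ⟨A, hA, T', hT', rfl⟩
    obtain ⟨F, hF1, hF2, rfl⟩ := ih T' hT'
    refine ⟨insert A F, hF1.insert A, ?_, by rw [sInter_insert]⟩
    rintro A' (rfl | hA')
    · exact ⟨n, hA⟩
    · exact hF2 A' hA'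

/-- the members with labels in `s` containing `z`. -/
def at' (s : Finset ℕ) (z : X) : Set (Set X) := {U | (∃ n ∈ s, U ∈ S.B n) ∧ z ∈ U}

/-- the points of `T` which are in as few members with labels in `s` as possible. -/
def Mn (T : Set X) (s : Finset ℕ) : Set X :=
  {z | z ∈ T ∧ ∀ y ∈ T, (S.at' s z).encard ≤ (S.at' s y).encard}

theorem Mn_nonempty (T : Set X) (s : Finset ℕ) (hT : T.Nonempty) : (S.Mn T s).Nonempty := by
  obtain ⟨n, ⟨z, hz, rfl⟩, hmin⟩ := WellFounded.has_min (wellFounded_lt (α := ℕ∞))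
    ((fun z => (S.at' s z).encard) '' T) (hT.image _)
  exact ⟨z, hz, fun y hy => not_lt.1 (hmin _ ⟨y, hy, rfl⟩)⟩

open Classical in
/-- a centre. -/
noncomputable def cen [Nonempty X] (T : Set X) (s : Finset ℕ) : X :=
  if h : (S.Mn T s).Nonempty then h.choose else Classical.arbitrary X

theorem cen_mem [Nonempty X] (T : Set X) (s : Finset ℕ) (hT : T.Nonempty) :
    S.cen T s ∈ S.Mn T s := by
  have h := S.Mn_nonempty T s hT
  unfold cen
  rw [dif_pos h]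
  exact h.choose_spec

/-- the new sets with label `(ns, s, e)`. -/
def new [Nonempty X] (L : Lab X) (ns : List ℕ) (s e : Finset ℕ) : Set (Set X) :=
  {A | ∃ T ∈ S.I ns, ∃ V ∈ L.W e, A = T ∩ {y | (S.cen T s, y) ∈ V}}

theorem new_fin [Nonempty X] (L : Lab X) (x : X) (ns : List ℕ) (s e : Finset ℕ) (A : Set X)
    (hA : A ∈ S.new L ns s e) : ∃ ms e', A ∈ S.new L ms s e' ∧
      {U | U ∈ S.new L ms s e' ∧ x ∈ U}.Finite := by
  classical
  obtain ⟨T, hT, V, hV, rfl⟩ := hA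
  obtain ⟨ms, hms1, hms2⟩ := S.I_fin x ns T hT
  have h1 : ∀ z : X × X, ∃ m, V ∈ L.A m ∧ {U | U ∈ L.A m ∧ z ∈ U}.Finite := by
    intro z
    obtain ⟨n, hn⟩ := hV.1
    exact L.fin z n V hn
  choose lab hlab1 hlab2 using h1
  let e' : Finset ℕ := hms2.toFinset.image fun U => lab (S.cen U s, x)
  refine ⟨ms, e', ⟨T, hms1, V, ⟨hV.1, ?_⟩, rfl⟩, ?_⟩
  · intro n hn
    obtain ⟨U, _, rfl⟩ := Finset.mem_image.1 hn
    exact hlab1 _
  · refine (hms2.biUnion (t := fun U => (fun V' : Set (X × X) =>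
      U ∩ {y | (S.cen U s, y) ∈ V'}) '' {V' | V' ∈ L.A (lab (S.cen U s, x)) ∧
        (S.cen U s, x) ∈ V'}) fun U _ => (hlab2 _).image _).subset ?_
    rintro _ ⟨⟨U, hU, V', hV', rfl⟩, hx⟩
    rw [mem_iUnion₂]
    refine ⟨U, ⟨hU, hx.1⟩, V', ⟨hV'.2 _ ?_, hx.2⟩, rfl⟩
    exact Finset.mem_image.2 ⟨U, by simpa using ⟨hU, hx.1⟩, rfl⟩

/-- one step of the construction. -/
def step [Nonempty X] (L : Lab X) : St X where
  B k := {A | (∃ n, Encodable.decode (α := ℕ ⊕ (List ℕ × Finset ℕ × Finset ℕ)) k =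
      some (Sum.inl n) ∧ A ∈ S.B n) ∨
    ∃ ns s e, Encodable.decode (α := ℕ ⊕ (List ℕ × Finset ℕ × Finset ℕ)) k =
      some (Sum.inr (ns, s, e)) ∧ A ∈ S.new L ns s e}
  op := by
    rintro k A (⟨n, _, h⟩ | ⟨ns, s, e, _, T, hT, V, hV, rfl⟩)
    · exact S.op n A h
    · obtain ⟨n, hn⟩ := hV.1
      exact (S.I_open ns T hT).inter ((L.op n V hn).preimage (by fun_prop))
  fin := by
    rintro x k A (⟨n, _, h⟩ | ⟨ns, s, e, _, h⟩)
    · obtain ⟨m, hm1, hm2⟩ := S.fin x n A h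
      refine ⟨Encodable.encode (Sum.inl m : ℕ ⊕ (List ℕ × Finset ℕ × Finset ℕ)),
        Or.inl ⟨m, by rw [Encodable.encodek], hm1⟩, hm2.subset ?_⟩
      rintro U ⟨⟨m', hm', hU⟩ | ⟨ns, s, e, hm', hU⟩, hxU⟩
      · rw [Encodable.encodek] at hm'
        have : m = m' := by simpa using hm'
        exact ⟨this ▸ hU, hxU⟩
      · rw [Encodable.encodek] at hm'
        simp at hm'
    · obtain ⟨ms, e', hm1, hm2⟩ := S.new_fin L x ns s e A h
      refine ⟨Encodable.encode (Sum.inr (ms, s, e') : ℕ ⊕ (List ℕ × Finset ℕ × Finset ℕ)),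
        Or.inr ⟨ms, s, e', by rw [Encodable.encodek], hm1⟩, hm2.subset ?_⟩
      rintro U ⟨⟨m', hm', hU⟩ | ⟨ns, s1, e1, hm', hU⟩, hxU⟩
      · rw [Encodable.encodek] at hm'
        simp at hm'
      · rw [Encodable.encodek] at hm'
        have h3 : ms = ns ∧ s = s1 ∧ e' = e1 := by simpa using hm'
        obtain ⟨rfl, rfl, rfl⟩ := h3
        exact ⟨hU, hxU⟩

theorem step_old [Nonempty X] (L : Lab X) (n : ℕ) (A : Set X) (hA : A ∈ S.B n) :
    ∃ m, A ∈ (S.step L).B m :=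
  ⟨Encodable.encode (Sum.inl n : ℕ ⊕ (List ℕ × Finset ℕ × Finset ℕ)),
    Or.inl ⟨n, by rw [Encodable.encodek], hA⟩⟩

theorem step_new [Nonempty X] (L : Lab X) (ns : List ℕ) (s : Finset ℕ) (T : Set X)
    (hT : T ∈ S.I ns) (n : ℕ) (V : Set (X × X)) (hV : V ∈ L.A n) :
    ∃ m, T ∩ {y | (S.cen T s, y) ∈ V} ∈ (S.step L).B m :=
  ⟨Encodable.encode (Sum.inr (ns, s, ∅) : ℕ ⊕ (List ℕ × Finset ℕ × Finset ℕ)),
    Or.inr ⟨ns, s, ∅, by rw [Encodable.encodek], T, hT, V, ⟨⟨n, hV⟩, by simp⟩, rfl⟩⟩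

end St

section

variable [Nonempty X] (L : Lab X)

/-- the sequence of states. -/
def seq : ℕ → St X
  | 0 => ⟨fun _ => ∅, by simp, by simp⟩
  | j + 1 => (seq j).step L

/-- all the open sets which were constructed. -/
def Tot : Set (Set X) := {A | ∃ j n, A ∈ (seq L j).B n}

theorem seq_mono (j k : ℕ) (h : j ≤ k) (A : Set X) (n : ℕ) (hA : A ∈ (seq L j).B n) :
    ∃ m, A ∈ (seq L k).B m := by
  induction k, h using Nat.le_induction with
  | base => exact ⟨n, hA⟩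
  | succ k _ ih =>
    obtain ⟨m, hm⟩ := ih
    exact (seq L k).step_old L m A hm

/-- the index `(j, T, s)` is adapted to `x` and the finite family `F`. -/
structure Adapted (x : X) (F : Finset (Tot L)) (j : ℕ) (T : Set X) (s : Finset ℕ) : Prop where
  mem : ∃ ns, T ∈ (seq L j).I ns
  xT : x ∈ T
  xM : x ∈ (seq L j).Mn T s
  pos : ∀ U ∈ F, x ∈ U.1 → T ⊆ U.1
  neg : ∀ U ∈ F, x ∉ U.1 → ∀ z ∈ (seq L j).Mn T s, z ∉ U.1

theorem exists_adapted (x : X) (F : Finset (Tot L)) : ∃ j T s, Adapted L x F j T s := by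
  classical
  -- a common stage
  have h1 : ∃ j, ∀ U ∈ F, ∃ n, U.1 ∈ (seq L j).B n := by
    induction F using Finset.induction_on with
    | empty => exact ⟨0, by simp⟩
    | insert U F _ ih =>
      obtain ⟨j, hj⟩ := ih
      obtain ⟨k, n, hk⟩ := U.2
      refine ⟨max j k, ?_⟩
      intro U' hU'
      rcases Finset.mem_insert.1 hU' with rfl | hU'
      · exact seq_mono L k _ (le_max_right _ _) _ n hk
      · obtain ⟨m, hm⟩ := hj U' hU'
        exact seq_mono L j _ (le_max_left _ _) _ m hm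
  obtain ⟨j, hj⟩ := h1
  have h2 : ∀ U : Tot L, ∃ m, U ∈ F → U.1 ∈ (seq L j).B m ∧
      {A | A ∈ (seq L j).B m ∧ x ∈ A}.Finite := by
    intro U
    by_cases hU : U ∈ F
    · obtain ⟨n, hn⟩ := hj U hU
      obtain ⟨m, hm⟩ := (seq L j).fin x n _ hn
      exact ⟨m, fun _ => hm⟩
    · exact ⟨0, fun h => absurd h hU⟩
  choose m hm using h2
  let s : Finset ℕ := F.image m
  let G : Set (Set X) := (seq L j).at' s x
  have hG : G.Finite := by
    have : G ⊆ ⋃ U ∈ (F : Set (Tot L)), {A | A ∈ (seq L j).B (m U) ∧ x ∈ A} := by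
      rintro A ⟨⟨n, hn, hA⟩, hxA⟩
      obtain ⟨U, hU, rfl⟩ := Finset.mem_image.1 hn
      exact mem_iUnion₂.2 ⟨U, hU, hA, hxA⟩
    exact (F.finite_toSet.biUnion fun U hU => (hm U hU).2).subset this
  let G' : Set (Set X) := G ∪ {A | ∃ U ∈ F, U.1 = A ∧ x ∈ A}
  have hG' : G'.Finite := by
    refine hG.union ((F.finite_toSet.image Subtype.val).subset ?_)
    rintro A ⟨U, hU, rfl, _⟩
    exact ⟨U, hU, rfl⟩
  obtain ⟨ns, hns⟩ := (seq L j).I_sInter G' hG' (by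
    rintro A (⟨⟨n, _, hA⟩, _⟩ | ⟨U, hU, rfl, _⟩)
    · exact ⟨n, hA⟩
    · exact hj U hU)
  have hxT : x ∈ ⋂₀ G' := by
    rintro A (hA | ⟨U, hU, rfl, hx⟩)
    · exact hA.2
    · exact hx
  have hsub : ∀ z ∈ ⋂₀ G', G ⊆ (seq L j).at' s z := by
    intro z hz A hA
    exact ⟨hA.1, hz A (Or.inl hA)⟩
  refine ⟨j, ⋂₀ G', s, ⟨ns, hns⟩, hxT, ⟨hxT, fun y hy => encard_le_encard (hsub y hy)⟩, ?_, ?_⟩
  · intro U hU hx
    exact sInter_subset_of_mem (Or.inr ⟨U, hU, rfl, hx⟩)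
  · intro U hU hx z hz hzU
    have h3 : G = (seq L j).at' s z :=
      hG.eq_of_subset_of_encard_le (hsub z hz.1) (hz.2 x hxT)
    have h4 : U.1 ∈ (seq L j).at' s z :=
      ⟨⟨m U, Finset.mem_image_of_mem _ hU, (hm U hU).1⟩, hzU⟩
    rw [← h3] at h4
    exact hx h4.2

theorem centers [CompactSpace X] [T2Space X] (x : X) (O : Set X) (hO : O ∈ 𝓝 x) :
    ∃ F : Finset (Tot L), ∀ j T s, Adapted L x F j T s → (seq L j).cen T s ∈ O := by
  by_contra hcon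
  push Not at hcon
  choose j T s hA hd using hcon
  let 𝓕 : Ultrafilter (Finset (Tot L)) := Ultrafilter.of atTop
  have h𝓕 : (𝓕 : Filter (Finset (Tot L))) ≤ atTop := Ultrafilter.of_le _
  let d : Finset (Tot L) → X := fun F => (seq L (j F)).cen (T F) (s F)
  obtain ⟨b, -, hb⟩ := isCompact_univ.ultrafilter_le_nhds (𝓕.map d) (by simp)
  have hb' : Tendsto d 𝓕 (𝓝 b) := hb
  have hbx : b ≠ x := by
    rintro rfl
    obtain ⟨F, hF⟩ := (hb'.eventually hO).exists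
    exact hd F hF
  obtain ⟨n, V, hV, hbV⟩ := L.cov (b, x) hbx
  have hVo := L.op n V hV
  have E1 : ∀ᶠ F in (𝓕 : Filter (Finset (Tot L))), (d F, x) ∈ V :=
    (hb'.prodMk_nhds tendsto_const_nhds).eventually (hVo.mem_nhds hbV)
  have E2 : ∀ᶠ F in (𝓕 : Filter (Finset (Tot L))), (d F, b) ∈ closure V := by
    filter_upwards [E1] with F hF
    obtain ⟨ns, hns⟩ := (hA F).mem
    obtain ⟨m, hm⟩ := (seq L (j F)).step_new L ns (s F) (T F) hns n V hV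
    have h1 : ∀ᶠ F' in (𝓕 : Filter (Finset (Tot L))),
        (⟨_, j F + 1, m, hm⟩ : Tot L) ∈ F' := by
      apply h𝓕
      exact (eventually_ge_atTop ({⟨_, j F + 1, m, hm⟩} : Finset (Tot L))).mono
        fun P hP => hP (by simp)
    have h2 : ∀ᶠ F' in (𝓕 : Filter (Finset (Tot L))), (d F, d F') ∈ V := by
      filter_upwards [h1] with F' hF'
      have h3 := (hA F').pos _ hF' ⟨(hA F).xT, hF⟩
      have h4 : d F' ∈ T F' := ((seq L (j F')).cen_mem (T F') (s F') ⟨x, (hA F').xT⟩).1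
      exact (h3 h4).2
    exact mem_closure_of_tendsto (tendsto_const_nhds.prodMk_nhds hb') h2
  have E3 : (b, b) ∈ closure V :=
    isClosed_closure.mem_of_tendsto (hb'.prodMk_nhds tendsto_const_nhds) E2
  exact Set.disjoint_left.1 (L.cl n V hV) E3 rfl

theorem pieces [CompactSpace X] [T2Space X] (x : X) (O : Set X) (hO : O ∈ 𝓝 x) :
    ∃ F : Finset (Tot L), ∀ j T s, Adapted L x F j T s → (seq L j).Mn T s ⊆ O := by
  by_contra hcon
  push Not at hcon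
  choose j T s hA hd using hcon
  have hd' : ∀ F, ∃ z, z ∈ (seq L (j F)).Mn (T F) (s F) ∧ z ∉ O := fun F => not_subset.1 (hd F)
  choose z hz1 hz2 using hd'
  let 𝓕 : Ultrafilter (Finset (Tot L)) := Ultrafilter.of atTop
  have h𝓕 : (𝓕 : Filter (Finset (Tot L))) ≤ atTop := Ultrafilter.of_le _
  obtain ⟨c, -, hc⟩ := isCompact_univ.ultrafilter_le_nhds (𝓕.map z) (by simp)
  have hc' : Tendsto z 𝓕 (𝓝 c) := hc
  have hmem : ∀ U : Tot L, ∀ᶠ F in (𝓕 : Filter (Finset (Tot L))), U ∈ F := by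
    intro U
    apply h𝓕
    exact (eventually_ge_atTop ({U} : Finset (Tot L))).mono fun P hP => hP (by simp)
  have hcx : x ≠ c := by
    rintro rfl
    obtain ⟨F, hF⟩ := (hc'.eventually hO).exists
    exact hz2 F hF
  obtain ⟨n, V, hV, hxV⟩ := L.cov (x, c) hcx
  have hVo := L.op n V hV
  have hV' := hVo.mem_nhds hxV
  rw [nhds_prod_eq, mem_prod_iff] at hV'
  obtain ⟨O1, hO1, O2, hO2, hO12⟩ := hV'
  have key : (x, x) ∈ closure V := by
    rw [mem_closure_iff_nhds]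
    intro t ht
    rw [nhds_prod_eq, mem_prod_iff] at ht
    obtain ⟨P1, hP1, P2, hP2, hP⟩ := ht
    obtain ⟨F1, hF1⟩ := centers L x (P1 ∩ O1) (inter_mem hP1 hO1)
    obtain ⟨j1, T1, s1, hA1⟩ := exists_adapted L x F1
    have hd1 := hF1 j1 T1 s1 hA1
    obtain ⟨ns, hns⟩ := hA1.mem
    obtain ⟨m, hm⟩ := (seq L j1).step_new L ns s1 T1 hns n V hV
    obtain ⟨G, hG1, hG2, hG3⟩ := (seq L j1).I_rep ns T1 hns
    -- the points `z F` are finally in `T1`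
    have h1 : ∀ᶠ F in (𝓕 : Filter (Finset (Tot L))), z F ∈ T1 := by
      have h2 : ∀ᶠ F in (𝓕 : Filter (Finset (Tot L))), ∀ A ∈ G, z F ∈ A := by
        rw [Filter.eventually_all_finite hG1]
        intro A hAG
        obtain ⟨k, hk⟩ := hG2 A hAG
        filter_upwards [hmem ⟨A, j1, k, hk⟩] with F hF
        refine (hA F).pos _ hF ?_ (hz1 F).1
        have := hA1.xT
        rw [hG3] at this
        exact this A hAG
      filter_upwards [h2] with F hF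
      rw [hG3]
      exact hF
    have h3 : ∀ᶠ F in (𝓕 : Filter (Finset (Tot L))), z F ∈ O2 := hc'.eventually hO2
    have hx : x ∈ T1 ∩ {y | ((seq L j1).cen T1 s1, y) ∈ V} := by
      by_contra hx
      obtain ⟨F, hF1, hF2, hF3⟩ := (h1.and (h3.and (hmem ⟨_, j1 + 1, m, hm⟩))).exists
      exact (hA F).neg _ hF3 hx (z F) (hz1 F) ⟨hF1, hO12 ⟨hd1.2, hF2⟩⟩
    exact ⟨_, hP ⟨hd1.1, mem_of_mem_nhds hP2⟩, hx.2⟩
  exact Set.disjoint_left.1 (L.cl n V hV) key rfl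

include L in
/-- the net of pieces. -/
theorem exists_net [CompactSpace X] [T2Space X] : Nonempty (Net X (ℕ × List ℕ × Finset ℕ)) := by
  refine ⟨⟨fun k => {p | ∃ T ∈ (seq L k.1).I k.2.1, p = ((seq L k.1).Mn T k.2.2, T)},
    ?_, ?_, ?_, ?_⟩⟩
  · rintro k _ ⟨T, _, rfl⟩
    exact fun z hz => hz.1
  · rintro k _ ⟨T, hT, rfl⟩
    exact (seq L k.1).I_open _ T hT
  · rintro y ⟨j, ns, s⟩ _ ⟨T, hT, rfl⟩
    obtain ⟨ms, h1, h2⟩ := (seq L j).I_fin y ns T hT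
    refine ⟨(j, ms, s), ⟨T, h1, rfl⟩, ?_⟩
    refine (h2.image fun T => ((seq L j).Mn T s, T)).subset ?_
    rintro _ ⟨⟨U, hU, rfl⟩, hy⟩
    exact ⟨U, ⟨hU, hy⟩, rfl⟩
  · intro y O hO
    obtain ⟨F, hF⟩ := pieces L y O hO
    obtain ⟨j, T, s, hA⟩ := exists_adapted L y F
    obtain ⟨ns, hns⟩ := hA.mem
    exact ⟨(j, ns, s), _, ⟨T, hns, rfl⟩, hA.xM, hF j T s hA⟩

end

/-- If the complement of the diagonal of a compact space is weakly `σ`-metacompact then all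
subspaces of the square are weakly `σ`-metacompact. -/
theorem square [CompactSpace X] [T2Space X]
    (h : WeaklySigmaMetacompact ↥((diagonal X)ᶜ)) (S : Set (X × X)) :
    WeaklySigmaMetacompact S := by
  rcases isEmpty_or_nonempty X with hX | hX
  · intro 𝒰 _ _
    refine ⟨∅, by simp, ?_, by simp, fun _ => ∅, by simp, fun x => by simp⟩
    rw [eq_univ_iff_forall]
    intro x
    exact isEmptyElim x.1.1
  · obtain ⟨L⟩ := exists_lab h
    obtain ⟨N⟩ := exists_net L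
    exact wsm_of_net (N.prod N) S

end Pool.Agent.TH566.Nw
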